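import Pool.Graph.R_pool_sql_team_ae5b0c61.Results.MP_554556_an.Definite

set_option autoImplicit false

namespace Pool.Agent.KS6_99.QS

open Matrix Quaternion Finset Pool.Agent.H89.Quat

set_option linter.unusedSectionVars false

variable {ι : Type} [Fintype ι]

/-- no (right) eigenvector of `T` is neutral for the form of `K` -/
def NoNeutral (K T : Matrix ι ι ℍ[ℝ]) : Prop :=
  ∀ (v : ι → ℍ[ℝ]) (q : ℍ[ℝ]), v ≠ 0 → T *ᵥ v = R v q → f K v v ≠ 0

theorem f_add_right (K : Matrix ι ι ℍ[ℝ]) (u v w : ι → ℍ[ℝ]) :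
    f K u (v + w) = f K u v + f K u w := by
  simp [f, mulVec_add, dotProduct_add]

theorem f_add_left (K : Matrix ι ι ℍ[ℝ]) (u v w : ι → ℍ[ℝ]) :
    f K (u + v) w = f K u w + f K v w := by
  simp [f, add_dotProduct]

theorem f_R_right (K : Matrix ι ι ℍ[ℝ]) (u w : ι → ℍ[ℝ]) (q : ℍ[ℝ]) :
    f K u (R w q) = f K u w * q := by
  rw [f, mv_R]; exact dot_R _ _ _

theorem f_R_left (K : Matrix ι ι ℍ[ℝ]) (u w : ι → ℍ[ℝ]) (q : ℍ[ℝ]) :
    f K (R u q) w = star q * f K u w := by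
  rw [f, R_dot]; rfl

theorem f_sk {K T : Matrix ι ι ℍ[ℝ]} (hK : Tᴴ * K = -(K * T)) (u w : ι → ℍ[ℝ]) :
    f K (T *ᵥ u) w = -f K u (T *ᵥ w) := by
  rw [f_adj, hK]; simp [f, neg_mulVec]

theorem f_self {K : Matrix ι ι ℍ[ℝ]} (hs : Kᴴ = -K) (u w : ι → ℍ[ℝ]) :
    star (f K u w) = -f K w u := by
  rw [f_star, hs]; simp [f, neg_mulVec]

theorem f_self_re {K : Matrix ι ι ℍ[ℝ]} (hs : Kᴴ = -K) (u : ι → ℍ[ℝ]) :
    (f K u u).re = 0 := by
  have := congrArg QuaternionAlgebra.re (f_self hs u u)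
  simp at this
  linarith

/-- the relation between the eigenvalue and the value of the form -/
theorem eig_rel {K T : Matrix ι ι ℍ[ℝ]} (hK : Tᴴ * K = -(K * T)) {v : ι → ℍ[ℝ]} {q : ℍ[ℝ]}
    (hv : T *ᵥ v = R v q) : star q * f K v v = -(f K v v * q) := by
  have := f_sk hK v v
  rwa [hv, f_R_left, f_R_right] at this

/-- the quaternion with given coordinates -/
def mk4 (a b c d : ℝ) : ℍ[ℝ] := ⟨a, b, c, d⟩

theorem mk4_re (a b c d : ℝ) : (mk4 a b c d).re = a := rfl
theorem mk4_imI (a b c d : ℝ) : (mk4 a b c d).imI = b := rfl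
theorem mk4_imJ (a b c d : ℝ) : (mk4 a b c d).imJ = c := rfl
theorem mk4_imK (a b c d : ℝ) : (mk4 a b c d).imK = d := rfl

theorem mu_re (ω : ℝ) : (mu ω).re = 0 := rfl
theorem mu_imI (ω : ℝ) : (mu ω).imI = ω := rfl
theorem mu_imJ (ω : ℝ) : (mu ω).imJ = 0 := rfl
theorem mu_imK (ω : ℝ) : (mu ω).imK = 0 := rfl

theorem re_zero_of {g q : ℍ[ℝ]} (hg : g ≠ 0) (h : star q * g = -(g * q)) : q.re = 0 := by
  have h1 : normSq g ≠ 0 := fun h0 => hg (normSq_eq_zero.mp h0)
  have h3 : (star g * (star q * g)).re = normSq g * q.re := by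
    rw [normSq_def']
    simp only [re_mul, imI_mul, imJ_mul, imK_mul, re_star, imI_star, imJ_star, imK_star]
    ring
  have h4 : (star g * -(g * q)).re = -(normSq g * q.re) := by
    rw [normSq_def']
    simp only [re_mul, imI_mul, imJ_mul, imK_mul, re_star, imI_star, imJ_star, imK_star, re_neg,
      imI_neg, imJ_neg, imK_neg]
    ring
  rw [h, h4] at h3
  have : normSq g * q.re = 0 := by linarith
  exact (mul_eq_zero.mp this).resolve_left h1

theorem re_zero {K T : Matrix ι ι ℍ[ℝ]} (hK : Tᴴ * K = -(K * T)) (hN : NoNeutral K T)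
    {v : ι → ℍ[ℝ]} {q : ℍ[ℝ]} (v0 : v ≠ 0) (hv : T *ᵥ v = R v q) : q.re = 0 :=
  re_zero_of (hN v q v0 hv) (eig_rel hK hv)

/-- semisimplicity of the eigenvalue `mu ω` -/
theorem semis {K T : Matrix ι ι ℍ[ℝ]} (hs : Kᴴ = -K) (hK : Tᴴ * K = -(K * T))
    (hN : NoNeutral K T) {v w : ι → ℍ[ℝ]} {ω : ℝ} (hv : T *ᵥ v = R v (mu ω))
    (hw : T *ᵥ w = R w (mu ω) + v) : v = 0 := by
  by_contra v0
  have h0 := hN v _ v0 hv
  apply h0
  have h1 := eig_rel hK hv
  have h2 := f_sk hK v w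
  rw [hv, hw, f_R_left, f_add_right, f_R_right] at h2
  have h3 := f_self_re hs v
  set g := f K v v
  set h := f K v w
  rcases eq_or_ne ω 0 with rfl | hω
  · have e : mu 0 = 0 := by ext <;> simp [mu]
    rw [e] at h2
    simp at h2
    exact h2
  · have a1 : (star (mu ω) * g).imJ = (-(g * mu ω)).imJ := by rw [h1]
    have a2 : (star (mu ω) * g).imK = (-(g * mu ω)).imK := by rw [h1]
    have a3 : (star (mu ω) * h).imI = (-(h * mu ω + g)).imI := by rw [h2]
    simp only [imI_mul, imJ_mul, imK_mul, re_star, imI_star, imJ_star, imK_star,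
      imI_neg, imJ_neg, imK_neg, imI_add, mu_re, mu_imI, mu_imJ, mu_imK] at a1 a2 a3
    apply Quaternion.ext
    · exact h3
    · rw [imI_zero]; linarith
    · rw [imJ_zero]
      have : ω * g.imJ = 0 := by linarith
      exact (mul_eq_zero.mp this).resolve_left hω
    · rw [imK_zero]
      have : ω * g.imK = 0 := by linarith
      exact (mul_eq_zero.mp this).resolve_left hω

/-- conjugation of pure quaternions of equal norm -/
theorem conj_pure {p q : ℍ[ℝ]} (hp : p.re = 0) (hq : q.re = 0) (hn : normSq p = normSq q)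
    (q0 : q ≠ 0) : ∃ b : ℍ[ℝ], b ≠ 0 ∧ p * b = b * q := by
  by_cases h : ((normSq q : ℝ) : ℍ[ℝ]) - p * q = 0
  · have hpq : p = -q := by
      have h1 : p * q = -q * q := by
        rw [sub_eq_zero] at h
        rw [← h]
        have : star q = -q := by apply Quaternion.ext <;> simp [hq]
        rw [← this, star_mul_self]
      exact mul_right_cancel₀ q0 h1
    subst hpq
    by_cases c : q.imI = 0 ∧ q.imJ = 0
    · refine ⟨mk4 0 1 0 0, fun h => ?_, ?_⟩
      · have := congrArg QuaternionAlgebra.imI h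
        rw [mk4_imI] at this
        simp at this
      · apply Quaternion.ext <;> simp only [re_mul, imI_mul, imJ_mul, imK_mul, re_neg, imI_neg,
          imJ_neg, imK_neg, hq, c.1, c.2, mk4_re, mk4_imI, mk4_imJ, mk4_imK] <;> ring
    · refine ⟨mk4 0 q.imJ (-q.imI) 0, fun h => c ⟨?_, ?_⟩, ?_⟩
      · have := congrArg QuaternionAlgebra.imJ h
        rw [mk4_imJ] at this
        simpa using this
      · have := congrArg QuaternionAlgebra.imI h
        rw [mk4_imI] at this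
        simpa using this
      · apply Quaternion.ext <;> simp only [re_mul, imI_mul, imJ_mul, imK_mul, re_neg, imI_neg,
          imJ_neg, imK_neg, hq, mk4_re, mk4_imI, mk4_imJ, mk4_imK] <;> ring
  · refine ⟨_, h, ?_⟩
    rw [normSq_def', normSq_def', hp, hq] at hn
    rw [normSq_def', hq]
    apply Quaternion.ext
    · simp only [re_mul, imI_mul, imJ_mul, imK_mul, re_sub, imI_sub, imJ_sub, imK_sub, re_coe,
        imI_coe, imJ_coe, imK_coe, hp, hq]
      ring
    · simp only [re_mul, imI_mul, imJ_mul, imK_mul, re_sub, imI_sub, imJ_sub, imK_sub, re_coe,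
        imI_coe, imJ_coe, imK_coe, hp, hq]
      linear_combination (q.imI) * hn
    · simp only [re_mul, imI_mul, imJ_mul, imK_mul, re_sub, imI_sub, imJ_sub, imK_sub, re_coe,
        imI_coe, imJ_coe, imK_coe, hp, hq]
      linear_combination (q.imJ) * hn
    · simp only [re_mul, imI_mul, imJ_mul, imK_mul, re_sub, imI_sub, imJ_sub, imK_sub, re_coe,
        imI_coe, imJ_coe, imK_coe, hp, hq]
      linear_combination (q.imK) * hn

theorem R_zero_right (v : ι → ℍ[ℝ]) : R v 0 = 0 := by ext1; simp [R]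

theorem R_add_right (v : ι → ℍ[ℝ]) (p q : ℍ[ℝ]) : R v (p + q) = R v p + R v q := by
  ext1; simp [R, mul_add]

theorem R_add_left (v w : ι → ℍ[ℝ]) (q : ℍ[ℝ]) : R (v + w) q = R v q + R w q := by
  ext1; simp [R, add_mul]

theorem R_neg_right (v : ι → ℍ[ℝ]) (q : ℍ[ℝ]) : R v (-q) = -R v q := by
  ext1; simp [R]

theorem R_one (v : ι → ℍ[ℝ]) : R v 1 = v := by ext1; simp [R]

theorem mul_R (T : Matrix ι ι ℍ[ℝ]) (v : ι → ℍ[ℝ]) (q : ℍ[ℝ]) :
    T *ᵥ R v q = R (T *ᵥ v) q := mv_R _ _ _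

theorem R_eq_zero {v : ι → ℍ[ℝ]} {q : ℍ[ℝ]} (h : R v q = 0) (hq : q ≠ 0) : v = 0 := by
  ext1 i
  have := congrFun h i
  simp only [R, Pi.zero_apply, mul_eq_zero, hq, or_false] at this
  exact this

/-- the kernel of `T` is at most one dimensional -/
theorem ker_one {K T : Matrix ι ι ℍ[ℝ]} (hs : Kᴴ = -K)
    (hN : NoNeutral K T) {v w : ι → ℍ[ℝ]} (hv : T *ᵥ v = 0) (hw : T *ᵥ w = 0) :
    ∃ a b : ℍ[ℝ], (a ≠ 0 ∨ b ≠ 0) ∧ R v a + R w b = 0 := by
  have key : ∀ u : ι → ℍ[ℝ], u ≠ 0 → T *ᵥ u = 0 → f K u u ≠ 0 := fun u u0 h =>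
    hN u 0 u0 (by rw [h, R_zero_right])
  by_cases v0 : v = 0
  · exact ⟨1, 0, Or.inl one_ne_zero, by rw [R_one, R_zero_right, v0, add_zero]⟩
  set g := f K v v with hg
  have g0 : g ≠ 0 := key v v0 hv
  set c := g⁻¹ * f K v w with hc
  set w' := w + R v (-c) with hw'
  have c1 : f K v w' = 0 := by
    rw [hw', f_add_right, f_R_right, hc, ← hg, mul_neg, ← mul_assoc, mul_inv_cancel₀ g0, one_mul,
      add_neg_cancel]
  have c2 : f K w' v = 0 := by
    have := f_self hs v w'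
    rw [c1, star_zero] at this
    exact neg_eq_zero.mp this.symm
  have hTw' : T *ᵥ w' = 0 := by
    rw [hw', mulVec_add, mul_R, hv, hw]
    ext1; simp [R]
  by_cases w0 : w' = 0
  · refine ⟨-c, 1, Or.inr one_ne_zero, ?_⟩
    rw [R_one, add_comm]
    exact w0
  set g' := f K w' w' with hg'
  have g'0 : g' ≠ 0 := key w' w0 hTw'
  have n0 : 0 < normSq g := lt_of_le_of_ne normSq_nonneg fun h => g0 (normSq_eq_zero.mp h.symm)
  have n1 : 0 < normSq g' := lt_of_le_of_ne normSq_nonneg fun h => g'0 (normSq_eq_zero.mp h.symm)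
  set s : ℝ := Real.sqrt (normSq g' / normSq g) with hsd
  have s0 : 0 < s := Real.sqrt_pos.2 (by positivity)
  have ss : s ^ 2 = normSq g' / normSq g := Real.sq_sqrt (by positivity)
  obtain ⟨b, b0, hb⟩ := conj_pure (p := g') (q := -((s : ℍ[ℝ]) * g)) (f_self_re hs w')
    (by rw [re_neg, coe_mul_eq_smul, re_smul, f_self_re hs v]; simp)
    (by rw [normSq_neg, map_mul, normSq_coe, ss]; field_simp)
    (by
      rw [neg_ne_zero]
      refine mul_ne_zero (fun h => s0.ne' ?_) g0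
      rwa [← Quaternion.coe_zero, Quaternion.coe_inj] at h)
  have nb : 0 < normSq b := lt_of_le_of_ne normSq_nonneg fun h => b0 (normSq_eq_zero.mp h.symm)
  set a : ℝ := Real.sqrt (s * normSq b) with ha
  have a2 : a ^ 2 = s * normSq b := Real.sq_sqrt (by positivity)
  have hz : f K (R v a + R w' b) (R v a + R w' b) = 0 := by
    rw [f_add_right, f_add_left, f_add_left, f_R, f_R, f_R, f_R, c1, c2, ← hg, ← hg', mul_zero,
      zero_mul, mul_zero, zero_mul, add_zero, zero_add, mul_assoc (star b), hb, ← mul_assoc (star b),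
      star_mul_self, Quaternion.star_coe, mul_neg, coe_mul_eq_smul, mul_coe_eq_smul, smul_smul,
      coe_mul_eq_smul, coe_mul_eq_smul, smul_smul, ← sq, a2, mul_comm s, add_neg_cancel]
  have hu : R v a + R w' b = 0 := by
    by_contra hne
    refine key _ hne ?_ hz
    rw [mulVec_add, mul_R, mul_R, hv, hTw']
    ext1; simp [R]
  refine ⟨a - c * b, b, Or.inr b0, ?_⟩
  rw [← hu, hw', R_add_left, RR, sub_eq_add_neg, R_add_right, neg_mul]
  abel

theorem ker_sq {K T : Matrix ι ι ℍ[ℝ]} (hK : Tᴴ * K = -(K * T)) (hN : NoNeutral K T)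
    {v : ι → ℍ[ℝ]} (h : T *ᵥ (T *ᵥ v) = 0) : T *ᵥ v = 0 := by
  by_contra h0
  refine hN (T *ᵥ v) 0 h0 (by rw [h, R_zero_right]) ?_
  rw [f_sk hK, h]
  simp [f]

theorem ker_pow [DecidableEq ι] {K T : Matrix ι ι ℍ[ℝ]} (hK : Tᴴ * K = -(K * T))
    (hN : NoNeutral K T) (N : ℕ) :
    ∀ v : ι → ℍ[ℝ], (T ^ N) *ᵥ v = 0 → T *ᵥ v = 0 := by
  induction N with
  | zero =>
    intro v h
    rw [pow_zero, one_mulVec] at h
    rw [h, mulVec_zero]
  | succ N ih =>
    intro v h
    apply ker_sq hK hN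
    apply ih
    rwa [mulVec_mulVec, ← pow_succ]

end Pool.Agent.KS6_99.QS
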