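import Pool.Agent.KS6_99.QS.Sys

/-!
Stability of the absence of neutral eigenvectors (compactness).
-/

set_option autoImplicit false
set_option linter.unusedSectionVars false

namespace Pool.Agent.KS6_99.QS

open Matrix Quaternion Finset Pool.Agent.H89.Quat Filter Topology
open Pool.Agent.Results.MP_554556_an.Definite

variable {n : ℕ}

theorem mat_tendsto {ι κ : Type} {F : ℕ → Matrix ι κ ℍ[ℝ]} {L : Matrix ι κ ℍ[ℝ]} :
    Tendsto F atTop (𝓝 L) ↔ ∀ i j, Tendsto (fun m => F m i j) atTop (𝓝 (L i j)) := by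
  constructor
  · intro h i j
    exact ((continuous_id.matrix_elem i j).tendsto L).comp h
  · intro h
    have : Tendsto (fun m => (F m : ι → κ → ℍ[ℝ])) atTop (𝓝 (L : ι → κ → ℍ[ℝ])) :=
      tendsto_pi_nhds.2 fun i => tendsto_pi_nhds.2 fun j => h i j
    exact this

theorem mulVec_tendsto {ι : Type} [Fintype ι] {F : ℕ → Matrix ι ι ℍ[ℝ]} {L : Matrix ι ι ℍ[ℝ]}
    {x : ℕ → ι → ℍ[ℝ]} {y : ι → ℍ[ℝ]} (h : Tendsto F atTop (𝓝 L)) (hx : Tendsto x atTop (𝓝 y)) :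
    Tendsto (fun m => F m *ᵥ x m) atTop (𝓝 (L *ᵥ y)) := by
  rw [tendsto_pi_nhds]
  intro i
  exact tendsto_finsetSum _ fun j _ => ((mat_tendsto.1 h) i j).mul ((tendsto_pi_nhds.1 hx) j)

theorem tendsto_C {l : ℕ} {A : ℕ → M n} (hu : IsUnit (A (l + 1))) {B : ℕ → ℕ → M n}
    (hB : ∀ k ≤ l + 1, Tendsto (fun m => B m k) atTop (𝓝 (A k))) :
    Tendsto (fun m => C (l + 1) (B m)) atTop (𝓝 (C (l + 1) A)) := by
  have hinv : Tendsto (fun m => Ring.inverse (B m (l + 1))) atTop (𝓝 (Ring.inverse (A (l + 1)))) :=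
    (inv_cont hu).tendsto.comp (hB (l + 1) le_rfl)
  rw [mat_tendsto]
  rintro ⟨i, a⟩ ⟨j, b⟩
  have h1 : ∀ A' : ℕ → M n, C (l + 1) A' (i, a) (j, b) =
      (if i.val + 1 = l + 1 then -(Ring.inverse (A' (l + 1)) * A' j) else
        if j.val = i.val + 1 then 1 else 0 : M n) a b := fun A' => rfl
  simp only [h1]
  split_ifs with h2 h3
  · have h4 : Tendsto (fun m => -(Ring.inverse (B m (l + 1)) * B m j)) atTop
        (𝓝 (-(Ring.inverse (A (l + 1)) * A j))) := (hinv.mul (hB j (by have := j.2; omega))).neg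
    exact mat_tendsto.1 h4 a b
  · exact tendsto_const_nhds
  · exact tendsto_const_nhds

theorem tendsto_G {l : ℕ} {A : ℕ → M n} {B : ℕ → ℕ → M n}
    (hB : ∀ k ≤ l + 1, Tendsto (fun m => B m k) atTop (𝓝 (A k))) :
    Tendsto (fun m => G (l + 1) (B m)) atTop (𝓝 (G (l + 1) A)) := by
  rw [mat_tendsto]
  rintro ⟨i, a⟩ ⟨j, b⟩
  have h1 : ∀ A' : ℕ → M n, G (l + 1) A' (i, a) (j, b) =
      (if i.val + j.val + 1 ≤ l + 1 then (-1 : ℝ) ^ i.val • A' (i.val + j.val + 1) else 0 : M n)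
        a b := fun A' => rfl
  simp only [h1]
  split_ifs with h2
  · have h4 : Tendsto (fun m => (-1 : ℝ) ^ i.val • B m (i.val + j.val + 1)) atTop
        (𝓝 ((-1 : ℝ) ^ i.val • A (i.val + j.val + 1))) := (hB _ h2).const_smul _
    exact mat_tendsto.1 h4 a b
  · exact tendsto_const_nhds

theorem R_smul_left {ι : Type} (r : ℝ) (v : ι → ℍ[ℝ]) (q : ℍ[ℝ]) : R (r • v) q = r • R v q := by
  ext1; simp [R]

/-- normalised neutral eigenvector -/
theorem normalise {ι : Type} [Fintype ι] {K T : Matrix ι ι ℍ[ℝ]} (h : ¬ NoNeutral K T) :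
    ∃ (v : ι → ℍ[ℝ]) (q : ℍ[ℝ]), ‖v‖ = 1 ∧ T *ᵥ v = R v q ∧ f K v v = 0 := by
  unfold NoNeutral at h
  push Not at h
  obtain ⟨v, q, v0, h1, h2⟩ := h
  have hv : ‖v‖ ≠ 0 := norm_ne_zero_iff.mpr v0
  refine ⟨‖v‖⁻¹ • v, q, ?_, ?_, ?_⟩
  · rw [norm_smul, norm_inv, norm_norm, inv_mul_cancel₀ hv]
  · rw [mulVec_smul, h1, R_smul_left]
  · simp only [f, ss, mulVec_smul, smul_dotProduct, dotProduct_smul]
    have : star v ⬝ᵥ K *ᵥ v = 0 := h2
    rw [this, smul_zero, smul_zero]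

theorem q_bound {ι : Type} [Fintype ι] {T : Matrix ι ι ℍ[ℝ]} {v : ι → ℍ[ℝ]} {q : ℍ[ℝ]}
    (hv : ‖v‖ = 1) (h : T *ᵥ v = R v q) {c : ℝ} (hc : ∀ i, ∑ j, ‖T i j‖ ≤ c) : ‖q‖ ≤ c := by
  have hne : Nonempty ι := by
    by_contra h
    rw [not_nonempty_iff] at h
    have : v = 0 := Subsingleton.elim _ _
    rw [this, norm_zero] at hv
    exact zero_ne_one hv
  obtain ⟨i, hi⟩ : ∃ i, ‖v i‖ = 1 := by
    by_contra hcon
    push Not at hcon
    have h1 : ∀ i, ‖v i‖ < 1 := fun i => lt_of_le_of_ne (hv ▸ norm_le_pi_norm v i) (hcon i)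
    have : ‖v‖ < 1 := (pi_norm_lt_iff one_pos).2 h1
    rw [hv] at this
    exact lt_irrefl _ this
  have h1 := congrFun h i
  have h2 : ‖R v q i‖ = ‖q‖ := by
    show ‖v i * q‖ = ‖q‖
    rw [norm_mul, hi, one_mul]
  rw [← h2, ← h1]
  calc ‖(T *ᵥ v) i‖ ≤ ∑ j, ‖T i j * v j‖ := norm_sum_le _ _
    _ ≤ ∑ j, ‖T i j‖ := Finset.sum_le_sum fun j _ => by
        rw [norm_mul]
        have := norm_le_pi_norm v j
        rw [hv] at this
        exact mul_le_of_le_one_right (norm_nonneg _) this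
    _ ≤ c := hc i

/-- the property is stable under convergence -/
theorem limit_neutral {ι : Type} [Fintype ι] {K T : Matrix ι ι ℍ[ℝ]}
    {K' T' : ℕ → Matrix ι ι ℍ[ℝ]} (hK : Tendsto K' atTop (𝓝 K)) (hT : Tendsto T' atTop (𝓝 T))
    (h : ∀ m, ¬ NoNeutral (K' m) (T' m)) : ¬ NoNeutral K T := by
  choose v q hv h1 h2 using fun m => normalise (h m)
  -- bound for the eigenvalues
  have hsum : ∀ i, Tendsto (fun m => ∑ j, ‖T' m i j‖) atTop (𝓝 (∑ j, ‖T i j‖)) := by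
    intro i
    refine tendsto_finsetSum _ fun j _ => ?_
    exact (mat_tendsto.1 hT i j).norm
  have hb : ∀ i, ∃ c : ℝ, ∀ m, ∑ j, ‖T' m i j‖ ≤ c := by
    intro i
    obtain ⟨c, hc⟩ := (hsum i).bddAbove_range
    exact ⟨c, fun m => hc ⟨m, rfl⟩⟩
  choose c hc using hb
  obtain ⟨c0, hc0⟩ : ∃ c0 : ℝ, ∀ i, c i ≤ c0 := by
    obtain ⟨c0, h⟩ := (Set.finite_range c).bddAbove
    exact ⟨c0, fun i => h ⟨i, rfl⟩⟩
  have hq : ∀ m, ‖q m‖ ≤ c0 := fun m =>
    q_bound (hv m) (h1 m) fun i => (hc i m).trans (hc0 i)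
  have hcpt : IsCompact ((Metric.sphere (0 : ι → ℍ[ℝ]) 1) ×ˢ (Metric.closedBall (0 : ℍ[ℝ]) c0)) :=
    (isCompact_sphere _ _).prod (isCompact_closedBall _ _)
  obtain ⟨⟨v0, q0⟩, hmem, φ, hφ, hlim⟩ := hcpt.tendsto_subseq
    (x := fun m => (v m, q m)) fun m => ⟨by simp [hv m], by simp [hq m]⟩
  have hv0 : Tendsto (fun m => v (φ m)) atTop (𝓝 v0) := (continuous_fst.tendsto _).comp hlim
  have hq0 : Tendsto (fun m => q (φ m)) atTop (𝓝 q0) := (continuous_snd.tendsto _).comp hlim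
  have hKφ := hK.comp hφ.tendsto_atTop
  have hTφ := hT.comp hφ.tendsto_atTop
  intro hN
  have hn0 : v0 ≠ 0 := by
    have : ‖v0‖ = 1 := by simpa using hmem.1
    intro h
    rw [h, norm_zero] at this
    exact zero_ne_one this
  have hE : T *ᵥ v0 = R v0 q0 := by
    have e1 : Tendsto (fun m => T' (φ m) *ᵥ v (φ m)) atTop (𝓝 (T *ᵥ v0)) :=
      mulVec_tendsto hTφ hv0
    have e2 : Tendsto (fun m => R (v (φ m)) (q (φ m))) atTop (𝓝 (R v0 q0)) := by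
      rw [tendsto_pi_nhds]
      intro i
      exact ((tendsto_pi_nhds.1 hv0) i).mul hq0
    refine tendsto_nhds_unique e1 ?_
    simp only [h1]
    exact e2
  refine hN v0 q0 hn0 hE ?_
  have e1 : Tendsto (fun m => f (K' (φ m)) (v (φ m)) (v (φ m))) atTop (𝓝 (f K v0 v0)) := by
    have h3 := mulVec_tendsto hKφ hv0
    exact tendsto_finsetSum _ fun j _ =>
      (((tendsto_pi_nhds.1 hv0) j).star).mul ((tendsto_pi_nhds.1 h3) j)
  refine tendsto_nhds_unique e1 ?_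
  simp only [h2]
  exact tendsto_const_nhds

theorem stable_of {l : ℕ} {A : ℕ → M n} (hu : IsUnit (A (l + 1)))
    (hN : NoNeutral (G (l + 1) A) (C (l + 1) A)) : StablyBdd (l + 1) A := by
  by_contra hcon
  unfold StablyBdd at hcon
  push Not at hcon
  have h1 : ∀ m : ℕ, ∃ A' : ℕ → M n, Sym (l + 1) A' ∧
      (∀ k ≤ l + 1, ∀ a b, ‖A' k a b - A k a b‖ < 1 / ((m : ℝ) + 1)) ∧ ¬ Bdd (l + 1) A' := by
    intro m
    obtain ⟨A', k1, k2, k3⟩ := hcon (1 / ((m : ℝ) + 1)) (by positivity)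
    exact ⟨A', k1, k2, k3⟩
  choose B k1 k2 k3 using h1
  have hB : ∀ k ≤ l + 1, Tendsto (fun m => B m k) atTop (𝓝 (A k)) := by
    intro k hk
    rw [mat_tendsto]
    intro a b
    rw [tendsto_iff_norm_sub_tendsto_zero]
    exact squeeze_zero (fun _ => norm_nonneg _) (fun m => (k2 m k hk a b).le)
      tendsto_one_div_add_atTop_nhds_zero_nat
  have hun : ∀ᶠ m in atTop, IsUnit (B m (l + 1)) := (hB (l + 1) le_rfl).eventually (unit_nhds hu)
  obtain ⟨m0, hm0⟩ := eventually_atTop.1 hun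
  refine limit_neutral ((tendsto_G hB).comp (tendsto_add_atTop_nat m0))
    ((tendsto_C hu hB).comp (tendsto_add_atTop_nat m0)) (fun m hNm => ?_) hN
  exact k3 (m + m0) (bdd_of (k1 _) (hm0 _ (by omega)) hNm)

end Pool.Agent.KS6_99.QS
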