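import Pool.Agent.KS6_99.QS.Eig

/-!
If no eigenvector is neutral then all solutions of `Y' = T Y` are bounded.
-/

set_option autoImplicit false
set_option linter.unusedSectionVars false

namespace Pool.Agent.KS6_99.QS

open Matrix Quaternion Finset Pool.Agent.H89.Quat

variable {ι : Type} [Fintype ι] [DecidableEq ι]

/-- the space of quaternionic vectors with complex scalars acting on the right -/
def W (ι : Type) : Type := ι → ℍ[ℝ]

noncomputable instance : AddCommGroup (W ι) := inferInstanceAs (AddCommGroup (ι → ℍ[ℝ]))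

noncomputable instance : Module ℝ (W ι) := inferInstanceAs (Module ℝ (ι → ℍ[ℝ]))

instance : Module.Finite ℝ (W ι) := inferInstanceAs (Module.Finite ℝ (ι → ℍ[ℝ]))

/-- complex number as a quaternion -/
def cq (z : ℂ) : ℍ[ℝ] := mk4 z.re z.im 0 0

theorem cq_one : cq 1 = 1 := by
  apply Quaternion.ext <;> simp [cq, mk4_re, mk4_imI, mk4_imJ, mk4_imK]

theorem cq_zero : cq 0 = 0 := by
  apply Quaternion.ext <;> simp [cq, mk4_re, mk4_imI, mk4_imJ, mk4_imK]

theorem cq_add (z w : ℂ) : cq (z + w) = cq z + cq w := by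
  apply Quaternion.ext <;> simp [cq, mk4_re, mk4_imI, mk4_imJ, mk4_imK]

theorem cq_mul (z w : ℂ) : cq (z * w) = cq z * cq w := by
  apply Quaternion.ext <;> simp [cq, mk4_re, mk4_imI, mk4_imJ, mk4_imK]

theorem c1 (v : ι → ℍ[ℝ]) : R v (cq 1) = v := by rw [cq_one, R_one]

theorem c2 (z w : ℂ) (v : ι → ℍ[ℝ]) : R v (cq (z * w)) = R (R v (cq w)) (cq z) := by
  rw [RR, mul_comm z w, cq_mul]

theorem c3 (z : ℂ) : R (0 : ι → ℍ[ℝ]) (cq z) = 0 := by
  ext1; simp [R]

theorem c4 (z w : ℂ) (v : ι → ℍ[ℝ]) : R v (cq (z + w)) = R v (cq z) + R v (cq w) := by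
  rw [cq_add, R_add_right]

theorem c5 (v : ι → ℍ[ℝ]) : R v (cq 0) = 0 := by
  rw [cq_zero, R_zero_right]

theorem c6 (r : ℝ) (z : ℂ) (v : ι → ℍ[ℝ]) : R v (cq (r • z)) = r • R v (cq z) := by
  ext1 i
  have : cq (r • z) = r • cq z := by
    apply Quaternion.ext <;> simp [cq, mk4_re, mk4_imI, mk4_imJ, mk4_imK]
  rw [this]
  simp [R]

noncomputable instance : Module ℂ (W ι) where
  smul z v := (R (v : ι → ℍ[ℝ]) (cq z) : ι → ℍ[ℝ])
  one_smul v := c1 v
  mul_smul z w v := c2 z w v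
  smul_zero z := c3 z
  smul_add z v w := R_add_left v w _
  add_smul z w v := c4 z w v
  zero_smul v := c5 v

instance : IsScalarTower ℝ ℂ (W ι) := ⟨fun r z v => c6 r z v⟩

instance : Module.Finite ℂ (W ι) := Module.Finite.of_restrictScalars_finite ℝ ℂ (W ι)

/-- `T` as a complex linear map -/
noncomputable def linC (T : Matrix ι ι ℍ[ℝ]) : Module.End ℂ (W ι) where
  toFun := fun v => (T *ᵥ v : ι → ℍ[ℝ])
  map_add' := mulVec_add T
  map_smul' := fun z v => mul_R T v (cq z)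

/-- there is a bounded solution with initial value `v` -/
def Good (T : Matrix ι ι ℍ[ℝ]) (v : ι → ℍ[ℝ]) : Prop :=
  ∃ Y : ℝ → ι → ℍ[ℝ], (∀ t, HasDerivAt Y (T *ᵥ Y t) t) ∧ Y 0 = v ∧ ∃ c : ℝ, ∀ t, ‖Y t‖ ≤ c

theorem good_zero (T : Matrix ι ι ℍ[ℝ]) : Good T 0 :=
  ⟨fun _ => 0, fun t => by rw [mulVec_zero]; exact hasDerivAt_const t 0, rfl, 0, fun t => by simp⟩

theorem good_add {T : Matrix ι ι ℍ[ℝ]} {v w : ι → ℍ[ℝ]} (hv : Good T v) (hw : Good T w) :
    Good T (v + w) := by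
  obtain ⟨Y, h1, h2, c, h3⟩ := hv
  obtain ⟨Z, k1, k2, d, k3⟩ := hw
  refine ⟨fun t => Y t + Z t, fun t => ?_, by simp [h2, k2], c + d, fun t => ?_⟩
  · rw [mulVec_add]
    exact (h1 t).add (k1 t)
  · exact (norm_add_le _ _).trans (add_le_add (h3 t) (k3 t))

theorem good_eig {T : Matrix ι ι ℍ[ℝ]} {v : ι → ℍ[ℝ]} {q : ℍ[ℝ]} (hq : q.re = 0)
    (hv : T *ᵥ v = R v q) : Good T v := by
  refine ⟨fun t : ℝ => R v (NormedSpace.exp (t • q)), fun t => ?_, ?_, ‖v‖, fun t => ?_⟩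
  · rw [mul_R, hv, RR]
    exact hasDerivAt_pi.mpr fun a => (hasDerivAt_exp_smul_const' q t).const_mul (v a)
  · simp [R_one]
  · rw [pi_norm_le_iff_of_nonneg (norm_nonneg _)]
    intro a
    have h1 : ‖NormedSpace.exp (t • q)‖ = 1 := by
      rw [Quaternion.norm_exp, re_smul, hq, smul_zero, NormedSpace.exp_zero, norm_one]
    have h2 : ‖R v (NormedSpace.exp (t • q)) a‖ = ‖v a‖ := by
      show ‖v a * NormedSpace.exp (t • q)‖ = ‖v a‖
      rw [norm_mul, h1, mul_one]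
    rw [h2]
    exact norm_le_pi_norm v a

theorem eig_of_pow {K T : Matrix ι ι ℍ[ℝ]} (hs : Kᴴ = -K) (hK : Tᴴ * K = -(K * T))
    (hN : NoNeutral K T) (z : ℂ) (k : ℕ) :
    ∀ v : W ι, ((linC T - algebraMap ℂ (Module.End ℂ (W ι)) z) ^ k) v = 0 →
      (linC T - algebraMap ℂ (Module.End ℂ (W ι)) z) v = 0 := by
  have step' : ∀ v w : ι → ℍ[ℝ], v = T *ᵥ w - R w (cq z) → T *ᵥ v - R v (cq z) = 0 → v = 0 := by
    intro v w hv hw
    have hTw : T *ᵥ w = R w (cq z) + v := by rw [hv]; abel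
    have hTv : T *ᵥ v = R v (cq z) := sub_eq_zero.mp hw
    by_contra v0
    have hre := re_zero hK hN v0 hTv
    have hmu : cq z = mu z.im := by
      apply Quaternion.ext
      · exact hre
      · rfl
      · rfl
      · rfl
    rw [hmu] at hTw hTv
    exact v0 (semis hs hK hN hTv hTw)
  have step : ∀ w : W ι, (linC T - algebraMap ℂ (Module.End ℂ (W ι)) z)
      ((linC T - algebraMap ℂ (Module.End ℂ (W ι)) z) w) = 0 →
      (linC T - algebraMap ℂ (Module.End ℂ (W ι)) z) w = 0 := by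
    intro w hw
    exact step' _ w rfl hw
  induction k with
  | zero =>
    intro v h
    rw [pow_zero, Module.End.one_apply] at h
    rw [h, map_zero]
  | succ k ih =>
    intro v h
    apply step
    apply ih
    rwa [pow_succ, Module.End.mul_apply] at h

theorem good_all {K T : Matrix ι ι ℍ[ℝ]} (hs : Kᴴ = -K) (hK : Tᴴ * K = -(K * T))
    (hN : NoNeutral K T) (v : ι → ℍ[ℝ]) : Good T v := by
  have htop := Module.End.iSup_maxGenEigenspace_eq_top (linC T)
  have hv : (v : W ι) ∈ ⨆ μ : ℂ, (linC T).maxGenEigenspace μ := by rw [htop]; trivial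
  refine Submodule.iSup_induction _ (motive := fun x : W ι => Good T (x : ι → ℍ[ℝ])) hv ?_ ?_ ?_
  · intro z x hx
    rw [Module.End.mem_maxGenEigenspace] at hx
    obtain ⟨k, hk⟩ := hx
    have h1 := eig_of_pow hs hK hN z k x (by
      have e : algebraMap ℂ (Module.End ℂ (W ι)) z = z • (1 : Module.End ℂ (W ι)) :=
        Algebra.algebraMap_eq_smul_one z
      rw [e]; exact hk)
    have h2 : T *ᵥ (x : ι → ℍ[ℝ]) = R x (cq z) := by
      have : T *ᵥ (x : ι → ℍ[ℝ]) - R x (cq z) = 0 := h1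
      exact sub_eq_zero.mp this
    by_cases x0 : (x : ι → ℍ[ℝ]) = 0
    · rw [x0]; exact good_zero T
    · exact good_eig (re_zero hK hN x0 h2) h2
  · exact good_zero T
  · intro x y hx hy
    exact good_add hx hy

theorem bounded_sol {K T : Matrix ι ι ℍ[ℝ]} (hs : Kᴴ = -K) (hK : Tᴴ * K = -(K * T))
    (hN : NoNeutral K T) {X : ℝ → ι → ℍ[ℝ]} (hX : ∀ t, HasDerivAt X (T *ᵥ X t) t) :
    ∃ c : ℝ, ∀ t, ‖X t‖ ≤ c := by
  obtain ⟨Y, h1, h2, c, h3⟩ := good_all hs hK hN (X 0)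
  have hlip : LipschitzWith ‖(lin T).toContinuousLinearMap‖₊ (fun y : ι → ℍ[ℝ] => T *ᵥ y) :=
    (lin T).toContinuousLinearMap.lipschitz
  have : X = Y := ODE_solution_unique_univ (v := fun _ y => T *ᵥ y) (s := fun _ => Set.univ)
    (K := ‖(lin T).toContinuousLinearMap‖₊) (t₀ := 0) (fun t => hlip.lipschitzOnWith)
    (fun t => ⟨hX t, trivial⟩) (fun t => ⟨h1 t, trivial⟩) h2.symm
  exact ⟨c, fun t => by rw [this]; exact h3 t⟩

end Pool.Agent.KS6_99.QS
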