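import Pool.Agent.KS6_99.QS.Alg

/-!
Equivalence between the absence of neutral eigenvectors and the description by root subspaces.
-/

set_option autoImplicit false
set_option linter.unusedSectionVars false

namespace Pool.Agent.KS6_99.QS

open Matrix Quaternion Finset Pool.Agent.H89.Quat
open Pool.Agent.Results.MP_554556_an.Definite (root)

variable {ι : Type} [Fintype ι] [DecidableEq ι]

/-- the form of `K T` is definite on the root subspace of `T` at `q` -/
def RootDef (K T : Matrix ι ι ℍ[ℝ]) (q : ℍ[ℝ]) : Prop :=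
  (∀ v ∈ root T q, v ≠ 0 → ∃ r : ℝ, 0 < r ∧ star v ⬝ᵥ (K * T) *ᵥ v = r) ∨
  (∀ v ∈ root T q, v ≠ 0 → ∃ r : ℝ, r < 0 ∧ star v ⬝ᵥ (K * T) *ᵥ v = r)

/-- the root subspace of `T` at `0` is at most one dimensional -/
def RootLine (T : Matrix ι ι ℍ[ℝ]) : Prop :=
  ∀ v ∈ root T 0, ∀ w ∈ root T 0, ∃ a b : ℍ[ℝ], (a ≠ 0 ∨ b ≠ 0) ∧ ∀ i, v i * a + w i * b = 0

theorem root_zero {T : Matrix ι ι ℍ[ℝ]} {v : ι → ℍ[ℝ]} :
    v ∈ root T 0 ↔ T ^ Fintype.card ι *ᵥ v = 0 := by
  simp [root]

theorem f_mul (K T : Matrix ι ι ℍ[ℝ]) (u w : ι → ℍ[ℝ]) : f (K * T) u w = f K u (T *ᵥ w) := by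
  rw [f, f, mulVec_mulVec]

theorem mul_self_adj {K T : Matrix ι ι ℍ[ℝ]} (hs : Kᴴ = -K) (hK : Tᴴ * K = -(K * T)) :
    (K * T)ᴴ = K * T := by
  rw [conjTranspose_mul, hs, mul_neg, hK, neg_neg]

theorem rl {K T : Matrix ι ι ℍ[ℝ]} (hs : Kᴴ = -K) (hK : Tᴴ * K = -(K * T)) (v : ι → ℍ[ℝ]) :
    star v ⬝ᵥ (K * T) *ᵥ v = (f (K * T) v v).re :=
  Quaternion.star_eq_self.mp ((f_star _ v v).trans (by rw [mul_self_adj hs hK]; rfl))

theorem rootDef_of {K T : Matrix ι ι ℍ[ℝ]} (hs : Kᴴ = -K) (hK : Tᴴ * K = -(K * T))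
    (hN : NoNeutral K T) {q : ℍ[ℝ]} (q0 : q ≠ 0) (hq : ∃ v ≠ 0, T *ᵥ v = fun i => v i * q) :
    RootDef K T q := by
  obtain ⟨v, v0, hv⟩ := hq
  have re0 : q.re = 0 := re_zero hK hN v0 hv
  have im0 : q.im ≠ 0 := fun k => q0 (by rw [← q.re_add_im, re0, k]; simp)
  unfold RootDef
  by_contra c
  simp only [rl hs hK, not_or, not_forall, root, im0, re0, if_false,
    mul_zero, zero_smul, sub_zero, normSq_eq_norm_mul_self, ← sq, Set.mem_ofPred_eq] at c
  obtain ⟨⟨a, ha, a0, a1⟩, b, hb, b0, b1⟩ := c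
  have hω := norm_ne_zero_iff.mpr q0
  obtain ⟨z, z0, hz, hn⟩ := neutral (K * T) T (by rw [← mul_assoc, hK, neg_mul]) _ hω _ a b a0 b0
    ha hb (not_lt.mp fun k => a1 ⟨_, k, rfl⟩) (not_lt.mp fun k => b1 ⟨_, k, rfl⟩)
  refine hN z _ z0 hz ?_
  have h1 : f (K * T) z z = 0 := by
    have := rl hs hK z
    rw [hn, Quaternion.coe_zero] at this
    exact this
  rw [f_mul, hz, f_R_right] at h1
  refine (mul_eq_zero.mp h1).resolve_right fun h => hω ?_
  have := congrArg QuaternionAlgebra.imI h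
  rwa [mu_imI] at this

theorem rootLine_of {K T : Matrix ι ι ℍ[ℝ]} (hs : Kᴴ = -K) (hK : Tᴴ * K = -(K * T))
    (hN : NoNeutral K T) : RootLine T := by
  intro v hv w hw
  rw [root_zero] at hv hw
  obtain ⟨a, b, h, h2⟩ := ker_one hs hN (ker_pow hK hN _ v hv) (ker_pow hK hN _ w hw)
  exact ⟨a, b, h, fun i => congrFun h2 i⟩

theorem mem_root {T : Matrix ι ι ℍ[ℝ]} {q : ℍ[ℝ]} {v : ι → ℍ[ℝ]} (v0 : v ≠ 0)
    (hv : T *ᵥ v = R v q) : v ∈ root T q := by
  have hne : Nonempty ι := by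
    by_contra h
    rw [not_nonempty_iff] at h
    exact v0 (Subsingleton.elim _ _)
  obtain ⟨N, hN⟩ : ∃ N, Fintype.card ι = N + 1 :=
    ⟨Fintype.card ι - 1, by have := Fintype.card_pos (α := ι); omega⟩
  simp only [root, Set.mem_ofPred_eq]
  rw [hN, pow_succ, ← mulVec_mulVec]
  split_ifs with h
  · have : (T - q.re • 1) *ᵥ v = 0 := by
      rw [sub_mulVec, hv, smul_mulVec, one_mulVec]
      have hq : q = (q.re : ℍ[ℝ]) := by
        conv_lhs => rw [← q.re_add_im, h, add_zero]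
      ext1 i
      simp only [R, Pi.sub_apply, Pi.smul_apply, Pi.zero_apply]
      rw [hq, mul_coe_eq_smul, re_coe, sub_self]
    rw [this, mulVec_zero]
  · have : (T ^ 2 - (2 * q.re) • T + normSq q • (1 : Matrix ι ι ℍ[ℝ])) *ᵥ v = 0 := by
      rw [add_mulVec, sub_mulVec, sq, ← mulVec_mulVec, hv, mul_R, hv, smul_mulVec, smul_mulVec,
        one_mulVec, hv]
      ext1 i
      have e : q * q - (2 * q.re) • q + ((normSq q : ℝ) : ℍ[ℝ]) = 0 := by
        rw [← star_mul_self, ← coe_mul_eq_smul]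
        have : ((2 * q.re : ℝ) : ℍ[ℝ]) = q + star q := (self_add_star q).symm ▸ by push_cast; rfl
        rw [this]
        noncomm_ring
      have := congrArg (v i * ·) e
      simp only [mul_add, mul_sub, mul_zero, mul_smul_comm, mul_coe_eq_smul] at this
      simp only [R, Pi.add_apply, Pi.sub_apply, Pi.smul_apply, Pi.zero_apply, mul_assoc]
      exact this
    rw [this, mulVec_zero]

/-- `T` as a real linear map -/
noncomputable def lin (T : Matrix ι ι ℍ[ℝ]) : (ι → ℍ[ℝ]) →ₗ[ℝ] (ι → ℍ[ℝ]) where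
  toFun := fun v => T *ᵥ v
  map_add' := mulVec_add T
  map_smul' := fun r v => mulVec_smul T r v

theorem lin_apply (T : Matrix ι ι ℍ[ℝ]) (v : ι → ℍ[ℝ]) : lin T v = T *ᵥ v := rfl

theorem noNeutral_of {K T : Matrix ι ι ℍ[ℝ]} (hs : Kᴴ = -K) (hK : Tᴴ * K = -(K * T))
    (hinj : ∀ w, K *ᵥ w = 0 → w = 0)
    (h1 : ∀ q : ℍ[ℝ], q ≠ 0 → (∃ v ≠ 0, T *ᵥ v = fun i => v i * q) → RootDef K T q)
    (h2 : RootLine T) : NoNeutral K T := by
  intro v q v0 hv hg
  by_cases q0 : q = 0
  · rw [q0, R_zero_right] at hv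
    have hne : Nonempty ι := by
      by_contra h
      rw [not_nonempty_iff] at h
      exact v0 (Subsingleton.elim _ _)
    have hcard : 1 ≤ Fintype.card ι := Fintype.card_pos
    have hker : ∀ x : ι → ℍ[ℝ], T *ᵥ x = 0 → x ∈ root T 0 := by
      intro x hx
      rw [root_zero]
      obtain ⟨N, hN⟩ : ∃ N, Fintype.card ι = N + 1 := ⟨Fintype.card ι - 1, by omega⟩
      rw [hN, pow_succ, ← mulVec_mulVec, hx, mulVec_zero]
    have hline : ∀ x ∈ root T 0, ∃ c : ℍ[ℝ], x = R v c := by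
      intro x hx
      obtain ⟨a, b, hab, h⟩ := h2 v (hker v hv) x hx
      have b0 : b ≠ 0 := by
        intro hb
        rw [hb] at hab h
        have ha : a ≠ 0 := hab.resolve_right (by simp)
        refine v0 (funext fun i => ?_)
        have := h i
        simp only [mul_zero, add_zero, mul_eq_zero, ha, or_false] at this
        exact this
      refine ⟨-(a * b⁻¹), funext fun i => ?_⟩
      have h3 : x i * b = -(v i * a) := by
        rw [eq_neg_iff_add_eq_zero, add_comm]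
        exact h i
      calc x i = x i * b * b⁻¹ := by rw [mul_assoc, mul_inv_cancel₀ b0, mul_one]
        _ = -(v i * a) * b⁻¹ := by rw [h3]
        _ = R v (-(a * b⁻¹)) i := by simp [R, mul_assoc]
    have hsq : ∀ x : ι → ℍ[ℝ], T *ᵥ (T *ᵥ x) = 0 → T *ᵥ x = 0 := by
      intro x hx
      rcases Nat.lt_or_ge 1 (Fintype.card ι) with hc | hc
      · have hx' : x ∈ root T 0 := by
          rw [root_zero]
          obtain ⟨N, hN⟩ : ∃ N, Fintype.card ι = N + 2 := ⟨Fintype.card ι - 2, by omega⟩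
          rw [hN, pow_add, sq, ← mulVec_mulVec, ← mulVec_mulVec, hx, mulVec_zero]
        obtain ⟨c, hc⟩ := hline x hx'
        rw [hc, mul_R, hv]
        ext1; simp [R]
      · have hone : Fintype.card ι = 1 := le_antisymm hc hcard
        obtain ⟨i0, hi0⟩ := Fintype.card_eq_one_iff.1 hone
        have hT : T = 0 := by
          ext1 i j
          rw [hi0 i, hi0 j]
          have hvi : v i0 ≠ 0 := fun h => v0 (funext fun k => by rw [hi0 k]; exact h)
          have h3 := congrFun hv i0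
          have h4 : (T *ᵥ v) i0 = T i0 i0 * v i0 := by
            rw [mulVec, dotProduct, Finset.sum_eq_single i0 (fun b _ hb => absurd (hi0 b) hb)
              (fun h => absurd (Finset.mem_univ _) h)]
          rw [h4] at h3
          simpa [hvi] using h3
        rw [hT, zero_mulVec]
    have hdisj : Disjoint (LinearMap.range (lin T)) (LinearMap.ker (lin T)) := by
      rw [Submodule.disjoint_def]
      rintro _ ⟨x, rfl⟩ hx
      exact hsq x hx
    have htop := Submodule.eq_top_of_disjoint _ _ (LinearMap.finrank_range_add_finrank_ker (lin T)).ge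
      hdisj
    refine v0 (hinj v ?_)
    have hall : ∀ u, f K v u = 0 := by
      intro u
      have hu : u ∈ LinearMap.range (lin T) ⊔ LinearMap.ker (lin T) := by rw [htop]; trivial
      obtain ⟨_, ⟨x, rfl⟩, k, hk, rfl⟩ := Submodule.mem_sup.1 hu
      obtain ⟨c, hc⟩ := hline k (hker k hk)
      rw [f_add_right, hc, f_R_right, hg, zero_mul, add_zero, lin_apply]
      have := f_sk hK v x
      rw [hv] at this
      rw [← neg_eq_zero, ← this]
      simp [f]
    ext1 i
    have h3 := hall (Pi.single i 1)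
    have h4 : f K (Pi.single i 1) v = 0 := by
      have := f_self hs v (Pi.single i 1)
      rw [h3, star_zero] at this
      exact neg_eq_zero.mp this.symm
    have h5 : f K (Pi.single i 1) v = (K *ᵥ v) i := by
      rw [f, dotProduct, Finset.sum_eq_single i]
      · simp
      · intro b _ hb
        simp [hb]
      · intro h; exact absurd (Finset.mem_univ _) h
    rw [h5] at h4
    exact h4
  · have hm := mem_root v0 hv
    have h3 : ∃ r : ℝ, r ≠ 0 ∧ star v ⬝ᵥ (K * T) *ᵥ v = r := by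
      rcases h1 q q0 ⟨v, v0, hv⟩ with h | h
      · obtain ⟨r, hr, h4⟩ := h v hm v0
        exact ⟨r, hr.ne', h4⟩
      · obtain ⟨r, hr, h4⟩ := h v hm v0
        exact ⟨r, hr.ne, h4⟩
    obtain ⟨r, hr, h4⟩ := h3
    have h5 : f (K * T) v v = 0 := by rw [f_mul, hv, f_R_right, hg, zero_mul]
    rw [f] at h5
    rw [h5] at h4
    exact hr (by simpa using (congrArg QuaternionAlgebra.re h4).symm)

end Pool.Agent.KS6_99.QS
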