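import Mathlib

/-!
Continuity of the inverse of quaternionic matrices.
-/

set_option autoImplicit false

namespace Pool.Agent.KS6_99.QS

open Matrix Quaternion Filter Topology

section
open scoped Matrix.Norms.Operator

theorem inv_cont_aux {n : ℕ} (A : Matrix (Fin n) (Fin n) ℍ[ℝ]) (hA : IsUnit A) :
    @ContinuousAt _ _ instTopologicalSpaceMatrix instTopologicalSpaceMatrix
      (Ring.inverse : Matrix (Fin n) (Fin n) ℍ[ℝ] → Matrix (Fin n) (Fin n) ℍ[ℝ]) A := by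
  obtain ⟨u, rfl⟩ := hA
  exact NormedRing.inverse_continuousAt u

theorem unit_nhds_aux {n : ℕ} (A : Matrix (Fin n) (Fin n) ℍ[ℝ]) (hA : IsUnit A) :
    ∀ᶠ B in @nhds _ instTopologicalSpaceMatrix A, IsUnit B := by
  obtain ⟨u, rfl⟩ := hA
  exact Units.nhds u

end

theorem inv_cont {n : ℕ} {A : Matrix (Fin n) (Fin n) ℍ[ℝ]} (hA : IsUnit A) :
    ContinuousAt (Ring.inverse : Matrix (Fin n) (Fin n) ℍ[ℝ] → Matrix (Fin n) (Fin n) ℍ[ℝ]) A :=
  inv_cont_aux A hA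

theorem unit_nhds {n : ℕ} {A : Matrix (Fin n) (Fin n) ℍ[ℝ]} (hA : IsUnit A) :
    ∀ᶠ B in 𝓝 A, IsUnit B := unit_nhds_aux A hA

end Pool.Agent.KS6_99.QS
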