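import Pool.Agent.KS6_99.QS.Cpt

/-!
A neutral eigenvector makes the system unstable, already under small perturbations of the two
lowest coefficients.
-/

set_option autoImplicit false
set_option linter.unusedSectionVars false

namespace Pool.Agent.KS6_99.QS

open Matrix Quaternion Finset Pool.Agent.H89.Quat Filter Topology
open Pool.Agent.Results.MP_554556_an.Definite

variable {n : ℕ}

/-- the coefficients with `A 0` and `A 1` perturbed by `H` and `S` -/
noncomputable def lowPert (A : ℕ → M n) (H S : M n) : ℕ → M n :=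
  fun k => A k + if k = 0 then H else if k = 1 then S else 0

/-- all sufficiently small admissible perturbations of the coefficients `A 0` and `A 1` alone give
bounded systems -/
def LowStablyBdd (l : ℕ) (A : ℕ → M n) : Prop :=
  ∃ ε > (0 : ℝ), ∀ H S : M n, Hᴴ = H → Sᴴ = -S → (∀ a b, ‖H a b‖ < ε) → (∀ a b, ‖S a b‖ < ε) →
    Bdd l (lowPert A H S)

theorem perturb0 {ι : Type} [Fintype ι] (x : ι → ℍ[ℝ]) (x0 : x ≠ 0) (r : ℝ → ι → ℍ[ℝ])
    (cr : Continuous r) (h0 : star x ⬝ᵥ r 0 = 0) (ε : ℝ) (hε : 0 < ε) :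
    ∃ (δ : ℝ) (H S : Matrix ι ι ℍ[ℝ]), δ ≠ 0 ∧ Hᴴ = H ∧ Sᴴ = -S ∧ (∀ a b, ‖H a b‖ < ε) ∧
      (∀ a b, ‖S a b‖ < ε) ∧ δ • r δ + H *ᵥ x + δ • (S *ᵥ x) = 0 := by
  obtain ⟨N, hN, eN⟩ : ∃ N : ℝ, N ≠ 0 ∧ star x ⬝ᵥ x = N := by
    refine ⟨∑ i, normSq (x i), fun h => x0 (funext fun i => normSq_eq_zero.mp
      ((sum_eq_zero_iff_of_nonneg fun i _ => normSq_nonneg).mp h i (mem_univ i))), ?_⟩
    simp only [dotProduct, Pi.star_apply, star_mul_self]
    exact (map_sum (algebraMap ℝ ℍ[ℝ]) _ _).symm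
  let s : ℝ → ℍ[ℝ] := fun δ => -(star x ⬝ᵥ r δ).im
  let h : ℝ → ι → ℍ[ℝ] := fun δ => -(δ • r δ) - (δ * N⁻¹) • R x (s δ)
  let H : ℝ → Matrix ι ι ℍ[ℝ] := fun δ => N⁻¹ • (vecMulVec (h δ) (star x) +
    vecMulVec x (star (h δ))) - (N⁻¹ ^ 2 * (star x ⬝ᵥ h δ).re) • vecMulVec x (star x)
  let S : ℝ → Matrix ι ι ℍ[ℝ] := fun δ => (N⁻¹ ^ 2) • vecMulVec (R x (s δ)) (star x)
  have cs : Continuous s := (continuous_im.comp (by fun_prop : Continuous fun δ => star x ⬝ᵥ r δ)).neg
  have ch : Continuous h := by unfold h R; fun_prop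
  have s0 : s 0 = 0 := by
    simp only [s, h0]
    simp
  have hh0 : h 0 = 0 := by ext1; simp [h, s0, R]
  have cH : ∀ a b, Continuous fun δ => ‖H δ a b‖ := fun a b => by
    simp only [H, Matrix.sub_apply, Matrix.smul_apply, Matrix.add_apply, vecMulVec_apply,
      Pi.star_apply]
    have := continuous_re.comp (by fun_prop : Continuous fun δ => star x ⬝ᵥ h δ)
    exact ((by fun_prop : Continuous fun δ => N⁻¹ • (h δ a * star (x b) + x a * star (h δ b))).sub
      ((continuous_const.mul this).smul continuous_const)).norm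
  have cS : ∀ a b, Continuous fun δ => ‖S δ a b‖ := fun a b => by
    simp only [S, R, Matrix.smul_apply, vecMulVec_apply]
    fun_prop
  have ev : ∀ᶠ δ in nhds (0 : ℝ), (∀ a b, ‖H δ a b‖ < ε) ∧ ∀ a b, ‖S δ a b‖ < ε := by
    simp only [Filter.eventually_and, Filter.eventually_all]
    exact ⟨fun a b => (cH a b).continuousAt.eventually_lt_const (by simpa [H, hh0] using hε),
      fun a b => (cS a b).continuousAt.eventually_lt_const (by simpa [S, s0, R, vecMulVec] using hε)⟩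
  obtain ⟨δ, ⟨k1, k2⟩, hδ⟩ := ((ev.filter_mono nhdsWithin_le_nhds).and
    (self_mem_nhdsWithin (a := (0 : ℝ)) (s := {0}ᶜ))).exists
  have ss' : star (s δ) = -s δ := by
    apply Quaternion.ext <;> simp [s]
  have k3 : star x ⬝ᵥ h δ = ((star x ⬝ᵥ h δ).re : ℝ) := by
    have e : star x ⬝ᵥ h δ = -(δ • ((star x ⬝ᵥ r δ).re : ℍ[ℝ])) := by
      simp only [h, dotProduct_sub, dotProduct_neg, dotProduct_smul, dot_R, eN]
      have e1 : star x ⬝ᵥ r δ = ((star x ⬝ᵥ r δ).re : ℍ[ℝ]) + (star x ⬝ᵥ r δ).im :=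
        (Quaternion.re_add_im _).symm
      have e2 : (δ * N⁻¹) • ((N : ℍ[ℝ]) * s δ) = δ • s δ := by
        rw [coe_mul_eq_smul, smul_smul, mul_assoc, inv_mul_cancel₀ hN, mul_one]
      rw [e2]
      conv_lhs => rw [e1]
      simp only [s, smul_add, smul_neg]
      abel
    rw [e]
    apply Quaternion.ext <;> simp
  refine ⟨δ, H δ, S δ, hδ, ?_, ?_, k1, k2, ?_⟩
  · ext1 a b; simp [H, vecMulVec_apply, add_comm]
  · ext1 a b; simp [S, R, vecMulVec_apply, ss', mul_assoc]
  · have k6 : star (h δ) ⬝ᵥ x = ((star x ⬝ᵥ h δ).re : ℝ) := by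
      rw [star_dotProduct, k3]; simp
    simp only [H, S, sub_mulVec, smul_mulVec, add_mulVec, vecMulVec_mulVec, eN, k6]
    ext1 i
    have : h δ i = -(δ • r δ i) - (δ * N⁻¹) • (x i * s δ) := rfl
    simp only [R, Pi.add_apply, Pi.sub_apply, Pi.smul_apply, MulOpposite.smul_eq_mul_unop,
      MulOpposite.unop_op, mul_coe_eq_smul, this, Pi.zero_apply]
    match_scalars <;> field_simp <;> ring

theorem lowPert_zero (A : ℕ → M n) : lowPert A 0 0 = A := by
  funext k
  simp [lowPert]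

theorem R_zero_left {ι : Type} (q : ℍ[ℝ]) : R (0 : ι → ℍ[ℝ]) q = 0 := by ext1; simp [R]

/-- the characteristic sum of the perturbed system -/
theorem lowPert_sum (l : ℕ) (A : ℕ → M n) (H S : M n) (y : Fin n → ℍ[ℝ]) (q : ℍ[ℝ]) :
    ∑ k ∈ range (l + 1 + 1), R (lowPert A H S k *ᵥ y) (q ^ k) =
      ∑ k ∈ range (l + 1 + 1), R (A k *ᵥ y) (q ^ k) + H *ᵥ y + R (S *ᵥ y) q := by
  have key : ∑ k ∈ range (l + 1 + 1), R ((if k = 0 then H else if k = 1 then S else 0 : M n) *ᵥ y)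
      (q ^ k) = H *ᵥ y + R (S *ᵥ y) q := by
    rw [sum_range_succ', sum_range_succ', add_comm]
    have h1 : ∀ k ∈ range l, R ((if k + 1 + 1 = 0 then H else if k + 1 + 1 = 1 then S else 0 : M n)
        *ᵥ y) (q ^ (k + 1 + 1)) = 0 := by
      intro k _
      rw [if_neg (by omega), if_neg (by omega), zero_mulVec, R_zero_left]
    rw [Finset.sum_eq_zero h1, zero_add]
    simp [R_one]
  unfold lowPert
  simp only [add_mulVec, R_add_left, sum_add_distrib]
  exact (congrArg _ key).trans (add_assoc _ _ _).symm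

theorem star_mu (ω : ℝ) : star (mu ω) = -mu ω := by
  apply Quaternion.ext
  · rw [re_star, re_neg, mu_re, neg_zero]
  · rw [imI_star, imI_neg]
  · rw [imJ_star, imJ_neg]
  · rw [imK_star, imK_neg]

theorem f_V_zero {l : ℕ} (A : ℕ → M n) (x : Fin n → ℍ[ℝ]) :
    f (G (l + 1) A) (V (l + 1) x 0) (V (l + 1) x 0) = star x ⬝ᵥ (A 1 *ᵥ x) := by
  have h1 : ∀ a, (G (l + 1) A *ᵥ V (l + 1) x 0) (0, a) = (A 1 *ᵥ x) a := by
    intro a
    rw [G, cmv, Finset.sum_eq_single 0]
    · simp [V]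
    · intro j _ hj
      have : (fun b => V (l + 1) x 0 (j, b)) = 0 := by
        funext b
        have hj' : j.val ≠ 0 := fun h => hj (Fin.ext h)
        simp [V, hj']
      rw [this, mulVec_zero]
    · intro h; exact absurd (Finset.mem_univ _) h
  have h2 : f (G (l + 1) A) (V (l + 1) x 0) (V (l + 1) x 0) =
      ∑ i : Fin (l + 1), ∑ a : Fin n, star (V (l + 1) x 0 (i, a)) *
        (G (l + 1) A *ᵥ V (l + 1) x 0) (i, a) := by
    rw [f, dotProduct, Fintype.sum_prod_type]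
    rfl
  rw [h2, Finset.sum_eq_single (0 : Fin (l + 1))]
  · refine Finset.sum_congr rfl fun a _ => ?_
    rw [h1]
    simp [V]
  · intro i _ hi
    refine Finset.sum_eq_zero fun a _ => ?_
    have hi' : i.val ≠ 0 := fun h => hi (Fin.ext h)
    simp [V, hi']
  · intro h; exact absurd (Finset.mem_univ _) h

theorem noNeutral_of_low {l : ℕ} {A : ℕ → M n} (hA : Sym (l + 1) A) (hu : IsUnit (A (l + 1)))
    (hs : LowStablyBdd (l + 1) A) : NoNeutral (G (l + 1) A) (C (l + 1) A) := by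
  intro v q v0 hv hg
  obtain ⟨ε, hε, hs⟩ := hs
  obtain ⟨x, x0, hvx, hx⟩ := eig hu v v0 q hv
  have re0 : q.re = 0 := by_contra fun k => unb _ A x x0 q k hx (by
    have := hs 0 0 (by simp) (by simp) (fun a b => by simpa using hε) (fun a b => by simpa using hε)
    rwa [lowPert_zero] at this)
  by_cases q0 : q = 0
  · -- the zero eigenvalue
    subst q0
    have hA0 : A 0 *ᵥ x = 0 := by
      rw [sum_range_succ'] at hx
      have h1 : ∀ k ∈ range (l + 1), R (A (k + 1) *ᵥ x) ((0 : ℍ[ℝ]) ^ (k + 1)) = 0 := by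
        intro k _
        rw [pow_succ, mul_zero, R_zero_right]
      rw [Finset.sum_eq_zero h1, zero_add, pow_zero, R_one] at hx
      exact hx
    have hA1 : star x ⬝ᵥ (A 1 *ᵥ x) = 0 := by
      rw [hvx, f_V_zero] at hg
      exact hg
    set r : ℝ → Fin n → ℍ[ℝ] := fun δ => ∑ k ∈ range (l + 1), δ ^ k • (A (k + 1) *ᵥ x) with hr
    have cr : Continuous r := by unfold r; fun_prop
    have r0 : r 0 = A 1 *ᵥ x := by
      rw [hr]
      simp only
      rw [sum_range_succ']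
      simp
    obtain ⟨δ, H, S, hδ, h1, h2, h3, h4, h5⟩ := perturb0 x x0 r cr (by rw [r0, hA1]) ε hε
    refine unb (l + 1) (lowPert A H S) x x0 (δ : ℍ[ℝ]) (by simpa using hδ) ?_ (hs H S h1 h2 h3 h4)
    rw [lowPert_sum, ← h5]
    congr 1
    · congr 1
      rw [sum_range_succ', pow_zero, R_one, hA0, add_zero, hr]
      simp only
      rw [smul_sum]
      refine Finset.sum_congr rfl fun k _ => ?_
      ext1 i
      simp only [R, Pi.smul_apply]
      rw [← Quaternion.coe_pow, mul_coe_eq_smul, smul_smul, pow_succ']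
    · ext1 i
      simp only [R, Pi.smul_apply]
      rw [mul_coe_eq_smul]
  · -- a nonzero eigenvalue
    have hω : ‖q‖ ≠ 0 := norm_ne_zero_iff.mpr q0
    set ω := ‖q‖ with hωd
    have hmu0 : mu ω ≠ 0 := fun h => hω (by
      have := congrArg QuaternionAlgebra.imI h
      rwa [mu_imI] at this)
    obtain ⟨b, b0, hb⟩ := conj_pure (p := q) (q := mu ω) re0 (mu_re ω) (by
      rw [normSq_eq_norm_mul_self, ← hωd, normSq_def', mu_re, mu_imI, mu_imJ, mu_imK]; ring) hmu0
    set z := R v b with hz'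
    have z0 : z ≠ 0 := fun h => v0 (R_eq_zero h b0)
    have hz : C (l + 1) A *ᵥ z = R z (mu ω) := by
      rw [hz', mul_R, hv, RR, RR, hb]
    have hn : f (G (l + 1) A) z z = 0 := by
      rw [hz', f_R, hg, mul_zero, zero_mul]
    obtain ⟨y, y0, hy1, hy⟩ := eig hu z z0 _ hz
    have sk := skG hA hu
    obtain ⟨δ, H, S, hδ, h1, h2, h3, h4, h5⟩ := perturb y y0 ω hω
      (fun δ => ∑ k ∈ range (l + 1 + 1), R (A k *ᵥ y) ((δ + mu ω) ^ k))
      (fun δ => f (G (l + 1) A) (V _ y (mu ω)) (V _ y (δ + mu ω)))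
      (by have := continuous_coe; unfold R; fun_prop)
      (by have := continuous_coe; unfold f V; fun_prop) (by simpa using hy) (by
        have : f (G (l + 1) A) (V _ y (mu ω)) (V _ y (((0 : ℝ) : ℍ[ℝ]) + mu ω)) = 0 := by
          rw [Quaternion.coe_zero, zero_add, ← hy1]
          exact hn
        rw [this]
        rfl) (fun δ => by
        have k := GW (l := l) A (Ring.inverse (A (l + 1)) *ᵥ ∑ k ∈ range (l + 1 + 1),
          R (A k *ᵥ y) ((δ + mu ω) ^ k)) y (mu ω)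
        rw [← CV hu, mulVec_mulVec, Ring.mul_inverse_cancel _ hu, one_mulVec, f, mulVec_sub,
          dotProduct_sub, mv_R] at k
        have k1 := f_adj (G (l + 1) A) (C _ A) (V _ y (mu ω)) (V _ y (δ + mu ω))
        rw [← hy1, hz, sk, f, f, R_dot, neg_mulVec, dotProduct_neg, ← mulVec_mulVec,
          star_mu, neg_mul, neg_inj] at k1
        rw [← hy1] at k ⊢
        rw [← k, ← k1, f, ← dot_R]; rfl) ε hε
    refine unb (l + 1) (lowPert A H S) y y0 (δ + mu ω)
      (by rw [re_add, re_coe, mu_re, add_zero]; exact hδ) ?_ (hs H S h1 h2 h3 h4)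
    rw [lowPert_sum]
    exact h5

end Pool.Agent.KS6_99.QS
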