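import Pool.Agent.KS6_99.QS.Dyn
import Pool.Agent.KS6_99.QS.Inv

/-!
The system `A_l x^(l) + ... + A_0 x = 0`: boundedness from the absence of neutral eigenvectors, and
its stability.
-/

set_option autoImplicit false
set_option linter.unusedSectionVars false

namespace Pool.Agent.KS6_99.QS

open Matrix Quaternion Finset Pool.Agent.H89.Quat Filter Topology
open Pool.Agent.Results.MP_554556_an.Definite

variable {n : ℕ}

theorem skG {l : ℕ} {A : ℕ → M n} (hA : Sym (l + 1) A) (hu : IsUnit (A (l + 1))) :
    (C (l + 1) A)ᴴ * G (l + 1) A = -(G (l + 1) A * C (l + 1) A) := by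
  have K := hK hA hu
  rw [← K, conjTranspose_mul, hG hA]; simp

theorem bdd_of {l : ℕ} {A : ℕ → M n} (hA : Sym (l + 1) A) (hu : IsUnit (A (l + 1)))
    (hN : NoNeutral (G (l + 1) A) (C (l + 1) A)) : Bdd (l + 1) A := by
  intro x hx heq
  set X : ℝ → Fin (l + 1) × Fin n → ℍ[ℝ] := fun t p => iteratedDeriv p.1.val x t p.2 with hX
  have hd : ∀ t, HasDerivAt X (C (l + 1) A *ᵥ X t) t := by
    intro t
    refine hasDerivAt_pi.mpr fun p => ?_
    obtain ⟨i, a⟩ := p
    have h1 : HasDerivAt (fun t => iteratedDeriv i.val x t) (iteratedDeriv (i.val + 1) x t) t := by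
      rw [iteratedDeriv_succ]
      exact ((hx.differentiable_iteratedDeriv i.val (by exact_mod_cast i.2)) t).hasDerivAt
    have h2 := (hasDerivAt_pi.mp h1) a
    have h3 : (C (l + 1) A *ᵥ X t) (i, a) = iteratedDeriv (i.val + 1) x t a := by
      by_cases hi : i.val + 1 < l + 1
      · exact C1 A (X t) i.val hi a
      · have hil : i = Fin.last l := by
          apply Fin.ext
          rw [Fin.val_last]
          have := i.2
          omega
        subst hil
        have h4 := heq t
        rw [sum_range_succ] at h4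
        have h5 : A (l + 1) *ᵥ iteratedDeriv (l + 1) x t =
            -∑ k ∈ range (l + 1), A k *ᵥ iteratedDeriv k x t := by
          rw [eq_neg_iff_add_eq_zero, add_comm]
          exact h4
        rw [C, cmv]
        have h6 : (∑ j : Fin (l + 1), (Matrix.of fun i j : Fin (l + 1) =>
            if i.val + 1 = l + 1 then -(Ring.inverse (A (l + 1)) * A j)
            else if j.val = i.val + 1 then 1 else 0) (Fin.last l) j *ᵥ fun b => X t (j, b)) =
            iteratedDeriv (l + 1) x t := by
          have h7 : ∀ j : Fin (l + 1), (Matrix.of fun i j : Fin (l + 1) =>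
            if i.val + 1 = l + 1 then -(Ring.inverse (A (l + 1)) * A j)
            else if j.val = i.val + 1 then 1 else 0) (Fin.last l) j *ᵥ (fun b => X t (j, b)) =
            -(Ring.inverse (A (l + 1)) *ᵥ (A j *ᵥ iteratedDeriv j x t)) := by
            intro j
            simp only [of_apply, Fin.val_last, if_true, neg_mulVec, mulVec_mulVec]
            rfl
          rw [Finset.sum_congr rfl fun j _ => h7 j, Finset.sum_neg_distrib,
            ← mulVec_sum, ← Finset.sum_range fun k => A k *ᵥ iteratedDeriv k x t, ← mulVec_neg,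
            ← h5, mulVec_mulVec, Ring.inverse_mul_cancel _ hu, one_mulVec]
        rw [h6]
        rfl
    rw [h3]
    exact h2
  obtain ⟨c, hc⟩ := bounded_sol (hG hA) (skG hA hu) hN hd
  refine ⟨c, fun t => ?_⟩
  have c0 : 0 ≤ c := (norm_nonneg _).trans (hc t)
  rw [pi_norm_le_iff_of_nonneg c0]
  intro a
  have := (norm_le_pi_norm (X t) (0, a)).trans (hc t)
  simpa [hX] using this

theorem G_inj {l : ℕ} {A : ℕ → M n} (hu : IsUnit (A (l + 1))) (w : Fin (l + 1) × Fin n → ℍ[ℝ])
    (hw : G (l + 1) A *ᵥ w = 0) : w = 0 := by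
  have key : ∀ j : ℕ, ∀ hj : j < l + 1, (fun b => w (⟨j, hj⟩, b)) = 0 := by
    intro j
    induction j using Nat.strong_induction_on with
    | _ j ih =>
      intro hj
      have h1 : ∀ a, (G (l + 1) A *ᵥ w) (⟨l - j, by omega⟩, a) = 0 := fun a => by rw [hw]; rfl
      have h2 : ∀ a, (G (l + 1) A *ᵥ w) (⟨l - j, by omega⟩, a) =
          (((-1 : ℝ) ^ (l - j) • A (l + 1)) *ᵥ fun b => w (⟨j, hj⟩, b)) a := by
        intro a
        rw [G, cmv, Finset.sum_eq_single ⟨j, hj⟩]
        · simp only [of_apply]
          rw [if_pos (by omega)]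
          congr 4
          omega
        · intro j' _ hj'
          have hne : j'.val ≠ j := fun h => hj' (Fin.ext h)
          rcases lt_or_gt_of_ne hne with h | h
          · rw [ih j'.val h j'.2, mulVec_zero]
          · simp only [of_apply]
            rw [if_neg (by omega), zero_mulVec]
        · intro h; exact absurd (Finset.mem_univ _) h
      have h3 : (((-1 : ℝ) ^ (l - j) • A (l + 1)) *ᵥ fun b => w (⟨j, hj⟩, b)) = 0 :=
        funext fun a => by rw [← h2, h1]; rfl
      rw [smul_mulVec, smul_eq_zero] at h3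
      have h4 := h3.resolve_left (by simp)
      have := congrArg (Ring.inverse (A (l + 1)) *ᵥ ·) h4
      simpa only [mulVec_mulVec, Ring.inverse_mul_cancel _ hu, one_mulVec, mulVec_zero] using this
  funext ⟨i, a⟩
  exact congrFun (key i.val i.2) a

end Pool.Agent.KS6_99.QS
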